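import Pool.Agent.V1141.NG.Noeth

/-!
# The ring of classes on all products is generated by products with few factors
-/

set_option autoImplicit false
set_option linter.unusedSectionVars false

open CategoryTheory AlgebraicGeometry
open scoped TensorProduct

universe u v

namespace Pool.Agent.V1141.NG

open Pool.Agent.H914 Pool.Agent.H914.VarClass Pool.Agent.H914.VarClass.Obj
  Pool.Agent.H914.WeilCohomology

section lin

variable {K V : Type*} [Field K] [AddCommGroup V] [Module K V] [Module.Finite K V]

/-- the orthogonal complement of a nondegenerate subspace -/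
lemma exists_add_perp (B : V →ₗ[K] V →ₗ[K] K) {T : Submodule K V}
    (hT : ∀ x ∈ T, (∀ y ∈ T, B x y = 0) → x = 0) (v : V) :
    ∃ a ∈ T, ∀ y ∈ T, B (v - a) y = 0 := by
  let F : T →ₗ[K] Module.Dual K T := (B.compl₁₂ T.subtype T.subtype)
  have hinj : Function.Injective F := by
    rw [injective_iff_map_eq_zero]
    rintro ⟨x, hx⟩ h
    apply Subtype.ext
    exact hT x hx fun y hy => congrArg (fun φ => φ ⟨y, hy⟩) h
  have hsurj : Function.Surjective F :=
    (LinearMap.injective_iff_surjective_of_finrank_eq_finrank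
      (Subspace.dual_finrank_eq (K := K) (V := T)).symm).1 hinj
  obtain ⟨⟨a, ha⟩, h⟩ := hsurj ((B v).comp T.subtype)
  refine ⟨a, ha, fun y hy => ?_⟩
  have h1 : B a y = B v y := congrArg (fun φ => φ ⟨y, hy⟩) h
  rw [map_sub, LinearMap.sub_apply, h1, sub_self]

end lin

variable {k : Type u} [Field k] {𝒱 : VarClass k} {ops : CycleOps 𝒱}

/-- A family of cohomology classes of even degree on all varieties of a class: subspaces
`cls Z j` of `H^(2 j)(Z)` for all `Z` and `j`, compatible with products and pull-backs. -/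
structure ClassFamily (W : WeilCohomology.{u, v} ops) where
  /-- the classes of codimension `j` on `Z` -/
  cls : ∀ Z : 𝒱.Obj, ℕ → Submodule W.K (W.H Z)
  le_gr : ∀ (Z : 𝒱.Obj) (j : ℕ), cls Z j ≤ W.gr Z (2 * j)
  one_mem : ∀ Z : 𝒱.Obj, 1 ∈ cls Z 0
  mul_mem : ∀ {Z : 𝒱.Obj} {i j : ℕ} {x y : W.H Z}, x ∈ cls Z i → y ∈ cls Z j →
    x * y ∈ cls Z (i + j)
  map_mem : ∀ {Y Z : 𝒱.Obj} (f : Y ⟶ Z) {j : ℕ} {x : W.H Z}, x ∈ cls Z j →
    W.map f x ∈ cls Y j

variable {W : WeilCohomology.{u, v} ops}

/-- The duality pairing between the classes of complementary codimensions is nondegenerate. -/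
def ClassFamily.Nondeg (T : ClassFamily W) (Z : 𝒱.Obj) : Prop :=
  ∀ i j : ℕ, i + j = Z.dim → ∀ x ∈ T.cls Z i, (∀ y ∈ T.cls Z j, W.tr Z (x * y) = 0) → x = 0

namespace ClassFamily

variable (T : ClassFamily W) {Z : 𝒱.Obj}

/-- all classes -/
noncomputable def tot (Z : 𝒱.Obj) : Submodule W.K (W.H Z) := ⨆ j, T.cls Z j

variable {T}

lemma mem_tot {j : ℕ} {x : W.H Z} (hx : x ∈ T.cls Z j) : x ∈ T.tot Z :=
  (le_iSup (T.cls Z) j) hx

lemma tot_induction {p : W.H Z → Prop} (hp : ∀ j, ∀ x ∈ T.cls Z j, p x) (h0 : p 0)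
    (hadd : ∀ x y, p x → p y → p (x + y)) {x : W.H Z} (hx : x ∈ T.tot Z) : p x :=
  Submodule.iSup_induction (T.cls Z) (motive := p) hx hp h0 hadd

lemma tot_mul {x y : W.H Z} (hx : x ∈ T.tot Z) (hy : y ∈ T.tot Z) : x * y ∈ T.tot Z := by
  refine tot_induction (p := fun x => x * y ∈ T.tot Z) (fun i x hx => ?_) ?_ ?_ hx
  · refine tot_induction (p := fun y => x * y ∈ T.tot Z) (fun j y hy => ?_) ?_ ?_ hy
    · exact mem_tot (T.mul_mem hx hy)
    · rw [mul_zero]; exact Submodule.zero_mem _
    · intro a b ha hb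
      rw [mul_add]
      exact Submodule.add_mem _ ha hb
  · rw [zero_mul]; exact Submodule.zero_mem _
  · intro a b ha hb
    rw [add_mul]
    exact Submodule.add_mem _ ha hb

lemma proj_mem_of_tot {x : W.H Z} (hx : x ∈ T.tot Z) (j : ℕ) :
    proj (W.isInternal Z) (2 * j) x ∈ T.cls Z j := by
  refine tot_induction (p := fun x => proj (W.isInternal Z) (2 * j) x ∈ T.cls Z j)
    (fun i x hx => ?_) ?_ ?_ hx
  · by_cases hij : i = j
    · subst hij
      rw [proj_same _ (T.le_gr Z i hx)]
      exact hx
    · rw [proj_ne _ (T.le_gr Z i hx) (by omega)]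
      exact Submodule.zero_mem _
  · rw [map_zero]; exact Submodule.zero_mem _
  · intro a b ha hb
    rw [map_add]
    exact Submodule.add_mem _ ha hb

lemma tr_proj {x y : W.H Z} {i j : ℕ} (hij : i + j = Z.dim) (hx : x ∈ T.tot Z)
    (hy : y ∈ T.cls Z j) : W.tr Z (proj (W.isInternal Z) (2 * i) x * y) = W.tr Z (x * y) := by
  refine tot_induction (p := fun x => W.tr Z (proj (W.isInternal Z) (2 * i) x * y) =
    W.tr Z (x * y)) (fun i' x hx => ?_) ?_ ?_ hx
  · by_cases h : i' = i
    · subst h
      rw [proj_same _ (T.le_gr Z _ hx)]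
    · rw [proj_ne _ (T.le_gr Z _ hx) (by omega), zero_mul, map_zero,
        W.tr_eq_zero (W.mul_mem (T.le_gr Z _ hx) (T.le_gr Z _ hy)) (by omega)]
  · rw [map_zero, zero_mul]
  · intro a b ha hb
    rw [map_add, add_mul, add_mul, map_add, map_add, ha, hb]

lemma tot_nondeg (hT : T.Nondeg Z) {x : W.H Z} (hx : x ∈ T.tot Z)
    (h : ∀ y ∈ T.tot Z, W.tr Z (x * y) = 0) : x = 0 := by
  have h1 : ∀ i, proj (W.isInternal Z) (2 * i) x = 0 := by
    intro i
    by_cases hi : i ≤ Z.dim
    · obtain ⟨j, hj⟩ := Nat.exists_eq_add_of_le hi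
      refine hT i j hj.symm _ (proj_mem_of_tot hx i) fun y hy => ?_
      rw [tr_proj hj.symm hx hy]
      exact h y (mem_tot hy)
    · have h2 := proj_mem (W.isInternal Z) (2 * i) x
      rw [W.gr_eq_bot Z _ (by omega)] at h2
      exact (Submodule.mem_bot _).1 h2
  have h2 : ∀ y : W.H Z, y ∈ T.tot Z → y = ∑ n ∈ Finset.range (2 * Z.dim + 1),
      proj (W.isInternal Z) n y := by
    intro y hy
    have h3 := congrArg (fun f => f y) (sum_proj (W.isInternal Z) (N := 2 * Z.dim + 1)
      (fun i hi => W.gr_eq_bot Z i (by omega)))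
    simp only [LinearMap.sum_apply, Module.End.one_apply] at h3
    exact h3.symm
  rw [h2 x hx]
  refine Finset.sum_eq_zero fun n _ => ?_
  rcases Nat.even_or_odd' n with ⟨i, rfl | rfl⟩
  · exact h1 i
  · refine tot_induction (p := fun x => proj (W.isInternal Z) (2 * i + 1) x = 0)
      (fun i' x hx => proj_ne _ (T.le_gr Z _ hx) (by omega)) (map_zero _) ?_ hx
    intro a b ha hb
    rw [map_add, ha, hb, add_zero]

end ClassFamily

/-- extraction of the homogeneous part of a combination -/
lemma span_extract {Z : 𝒱.Obj} {S : ℕ → Set (W.H Z)} (hS : ∀ d, ∀ s ∈ S d, s ∈ W.gr Z (2 * d))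
    {c : ℕ} {t : W.H Z} (ht : t ∈ W.gr Z (2 * c))
    (hspan : t ∈ Submodule.span W.K {s | ∃ d, s ∈ S d}) : t ∈ Submodule.span W.K (S c) := by
  have h1 : ∀ x ∈ Submodule.span W.K {s | ∃ d, s ∈ S d},
      proj (W.isInternal Z) (2 * c) x ∈ Submodule.span W.K (S c) := by
    intro x hx
    induction hx using Submodule.span_induction with
    | zero => rw [map_zero]; exact Submodule.zero_mem _
    | add x y _ _ hx hy => rw [map_add]; exact Submodule.add_mem _ hx hy
    | smul a x _ hx => rw [map_smul]; exact Submodule.smul_mem _ _ hx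
    | mem x hx =>
      obtain ⟨d, hd⟩ := hx
      by_cases h : d = c
      · subst h
        rw [proj_same _ (hS d x hd)]
        exact Submodule.subset_span hd
      · rw [proj_ne _ (hS d x hd) (by omega)]
        exact Submodule.zero_mem _
  have h2 := h1 t hspan
  rwa [proj_same _ ht] at h2

variable {r : ℕ} {X : Fin r → 𝒱.Obj}

/-- the classes of positive codimension -/
noncomputable def posCls (T : ClassFamily W) (X : Fin r → 𝒱.Obj) (i : Fin r) (I : List (Fin r)) :
    Submodule W.K (W.H (prodL X i I)) :=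
  Submodule.span W.K {x | ∃ c, 0 < c ∧ x ∈ T.cls (prodL X i I) c}

/-- **The reduction of the codimension.** -/
lemma mem_span_of_below {T : ClassFamily W} {i : Fin r} {I : List (Fin r)}
    (hT : T.Nondeg (prodL X i I)) {c : ℕ} {t : W.H (prodL X i I)}
    (ht : t ∈ T.cls (prodL X i I) c) (hb : t ∈ below (posCls T X) i I) :
    t ∈ Submodule.span W.K {v | ∃ (a' c' : ℕ) (j : Fin r) (J : List (Fin r))
      (π : prodL X i I ⟶ prodL X j J) (a : W.H (prodL X i I)) (q : W.H (prodL X j J)),
        a' + c' = c ∧ 0 < c' ∧ List.Sublist (j :: J) (i :: I) ∧ J.length < I.length ∧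
        a ∈ T.cls (prodL X i I) a' ∧ q ∈ T.cls (prodL X j J) c' ∧ v = a * W.map π q} := by
  let B : W.H (prodL X i I) →ₗ[W.K] W.H (prodL X i I) →ₗ[W.K] W.K := (LinearMap.mul W.K (W.H (prodL X i I))).compr₂ (W.tr (prodL X i I))
  have hB : ∀ x y, B x y = W.tr (prodL X i I) (x * y) := fun x y => rfl
  let S : ℕ → Set (W.H (prodL X i I)) := fun d => {v | ∃ (a' c' : ℕ) (j : Fin r) (J : List (Fin r))
      (π : (prodL X i I) ⟶ prodL X j J) (a : W.H (prodL X i I)) (q : W.H (prodL X j J)),
        a' + c' = d ∧ 0 < c' ∧ List.Sublist (j :: J) (i :: I) ∧ J.length < I.length ∧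
        a ∈ T.cls (prodL X i I) a' ∧ q ∈ T.cls (prodL X j J) c' ∧ v = a * W.map π q}
  have hS : ∀ d, ∀ s ∈ S d, s ∈ T.cls (prodL X i I) d := by
    rintro d s ⟨a', c', j, J, π, a, q, rfl, -, -, -, ha, hq, rfl⟩
    exact T.mul_mem ha (T.map_mem π hq)
  have key : ∀ v ∈ below (posCls T X) i I, ∃ s ∈ Submodule.span W.K {s | ∃ d, s ∈ S d},
      ∀ y ∈ T.tot (prodL X i I), W.tr (prodL X i I) ((v - s) * y) = 0 := by
    intro v hv
    induction hv using Submodule.span_induction with
    | zero => exact ⟨0, Submodule.zero_mem _, fun y _ => by rw [sub_zero, zero_mul, map_zero]⟩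
    | add x y _ _ hx hy =>
      obtain ⟨s, hs, h1⟩ := hx
      obtain ⟨s', hs', h2⟩ := hy
      refine ⟨s + s', Submodule.add_mem _ hs hs', fun z hz => ?_⟩
      rw [show x + y - (s + s') = (x - s) + (y - s') by abel, add_mul, map_add, h1 z hz, h2 z hz,
        add_zero]
    | smul a x _ hx =>
      obtain ⟨s, hs, h1⟩ := hx
      refine ⟨a • s, Submodule.smul_mem _ _ hs, fun z hz => ?_⟩
      rw [← smul_sub, smul_mul_assoc, map_smul, h1 z hz, smul_zero]
    | mem x hx =>
      obtain ⟨j, J, π, y, q, hs, hlt, hq, rfl⟩ := hx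
      obtain ⟨a, ha, h1⟩ := exists_add_perp B
        (fun x hx h => ClassFamily.tot_nondeg hT hx fun y hy => by rw [← hB]; exact h y hy) y
      refine ⟨a * W.map π q, ?_, fun z hz => ?_⟩
      · have h2 : ∀ q' ∈ posCls T X j J, a * W.map π q' ∈
            Submodule.span W.K {s | ∃ d, s ∈ S d} := by
          intro q' hq'
          induction hq' using Submodule.span_induction with
          | zero => rw [map_zero, mul_zero]; exact Submodule.zero_mem _
          | add x z _ _ hx hz => rw [map_add, mul_add]; exact Submodule.add_mem _ hx hz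
          | smul c x _ hx => rw [map_smul, mul_smul_comm]; exact Submodule.smul_mem _ _ hx
          | mem q' hq' =>
            obtain ⟨c', hc', hq'⟩ := hq'
            refine ClassFamily.tot_induction (T := T) (p := fun a => a * W.map π q' ∈
              Submodule.span W.K {s | ∃ d, s ∈ S d}) (fun a' a ha => ?_) ?_ ?_ ha
            · exact Submodule.subset_span ⟨a' + c', a', c', j, J, π, a, q', rfl, hc', hs, hlt,
                ha, hq', rfl⟩
            · rw [zero_mul]; exact Submodule.zero_mem _
            · intro x z hx hz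
              rw [add_mul]
              exact Submodule.add_mem _ hx hz
        exact h2 q hq
      · have h3 : W.map π q * z ∈ T.tot (prodL X i I) := by
          refine ClassFamily.tot_mul ?_ hz
          have h4 : ∀ q' ∈ posCls T X j J, W.map π q' ∈ T.tot (prodL X i I) := by
            intro q' hq'
            induction hq' using Submodule.span_induction with
            | zero => rw [map_zero]; exact Submodule.zero_mem _
            | add x z _ _ hx hz => rw [map_add]; exact Submodule.add_mem _ hx hz
            | smul c x _ hx => rw [map_smul]; exact Submodule.smul_mem _ _ hx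
            | mem q' hq' =>
              obtain ⟨c', -, hq'⟩ := hq'
              exact ClassFamily.mem_tot (T.map_mem π hq')
          exact h4 q hq
        have h5 := h1 _ h3
        rw [hB, ← mul_assoc, sub_mul] at h5
        exact h5
  obtain ⟨s, hs, h1⟩ := key t hb
  have hstot : s ∈ T.tot (prodL X i I) := by
    refine (Submodule.span_le (p := T.tot (prodL X i I))).2 ?_ hs
    rintro x ⟨d, hx⟩
    exact ClassFamily.mem_tot (hS d x hx)
  have h2 : t - s = 0 := ClassFamily.tot_nondeg hT
    (Submodule.sub_mem _ (ClassFamily.mem_tot ht) hstot) h1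
  rw [sub_eq_zero] at h2
  subst h2
  exact span_extract (S := S) (fun d s hs => T.le_gr (prodL X i I) d (hS d s hs)) (T.le_gr (prodL X i I) c ht) hs

/-- homogeneous letters -/
lemma exists_letters_one (Y : 𝒱.Obj) : ∃ (n : ℕ) (e : Fin n → W.H Y),
    (∀ c, ∃ d, e c ∈ W.gr Y d) ∧ Submodule.span W.K (Set.range e) = ⊤ := by
  obtain ⟨b, hb, hspan, hli⟩ := exists_linearIndependent W.K {x : W.H Y | ∃ d, x ∈ W.gr Y d}
  have hfin : b.Finite := hli.setFinite
  have : Finite b := hfin
  obtain ⟨n, ⟨φ⟩⟩ := Finite.exists_equiv_fin b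
  refine ⟨n, fun c => (φ.symm c : W.H Y), fun c => hb (φ.symm c).2, ?_⟩
  have h1 : Set.range (fun c => (φ.symm c : W.H Y)) = b := by
    ext x
    constructor
    · rintro ⟨c, rfl⟩
      exact (φ.symm c).2
    · intro hx
      exact ⟨φ ⟨x, hx⟩, by simp⟩
  rw [h1, hspan, eq_top_iff]
  intro x _
  exact gr_induction (W.isInternal Y) (p := fun x => x ∈ Submodule.span W.K
    {x : W.H Y | ∃ d, x ∈ W.gr Y d}) (fun i a ha => Submodule.subset_span ⟨i, ha⟩)
    (fun a b ha hb => Submodule.add_mem _ ha hb) x

/-- **Ideals in the cohomology of all products are generated by the products with few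
factors.** -/
theorem exists_bound (Q : ∀ (i : Fin r) (I : List (Fin r)), Submodule W.K (W.H (prodL X i I))) :
    ∃ N : ℕ, ∀ (i : Fin r) (I : List (Fin r)), N ≤ I.length → Q i I ≤ below Q i I := by
  classical
  choose n e he he' using fun i => exists_letters_one (W := W) (X i)
  let M := ∑ i, n i
  have hM : ∀ i, n i ≤ M := fun i => Finset.single_le_sum (f := n) (fun _ _ => Nat.zero_le _)
    (Finset.mem_univ i)
  let e' : ∀ i, Fin M → W.H (X i) := fun i c => if h : c.1 < n i then e i ⟨c.1, h⟩ else 0
  refine exists_bound_of_letters (κ := Fin M) (e := e') (fun i c => ?_) (fun i => ?_) Q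
  · by_cases h : c.1 < n i
    · simp only [e', dif_pos h]
      exact he i _
    · simp only [e', dif_neg h]
      exact ⟨0, Submodule.zero_mem _⟩
  · rw [eq_top_iff, ← he' i]
    refine Submodule.span_mono ?_
    rintro _ ⟨c, rfl⟩
    refine ⟨⟨c.1, c.2.trans_le (hM i)⟩, ?_⟩
    simp only [e', dif_pos c.2]

/-- **The classes of positive codimension are, on all products, in the ideal generated by the
products with few factors.** -/
lemma le_small {Q : ∀ (i : Fin r) (I : List (Fin r)), Submodule W.K (W.H (prodL X i I))} {N : ℕ}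
    (hN : ∀ (i : Fin r) (I : List (Fin r)), N ≤ I.length → Q i I ≤ below Q i I) (i : Fin r)
    (I : List (Fin r)) : Q i I ≤ Submodule.span W.K {v | ∃ (j : Fin r) (J : List (Fin r))
      (π : prodL X i I ⟶ prodL X j J) (y : W.H (prodL X i I)) (q : W.H (prodL X j J)),
        List.Sublist (j :: J) (i :: I) ∧ J.length + 1 ≤ N ∧ q ∈ Q j J ∧ v = y * W.map π q} := by
  have key : ∀ (n : ℕ) (i : Fin r) (I : List (Fin r)), I.length = n → Q i I ≤
      Submodule.span W.K {v | ∃ (j : Fin r) (J : List (Fin r))
        (π : prodL X i I ⟶ prodL X j J) (y : W.H (prodL X i I)) (q : W.H (prodL X j J)),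
          List.Sublist (j :: J) (i :: I) ∧ J.length + 1 ≤ N ∧ q ∈ Q j J ∧
            v = y * W.map π q} := by
    intro n
    induction n using Nat.strong_induction_on with
    | _ n ihn =>
      intro i I hI x hx
      by_cases hsmall : I.length + 1 ≤ N
      · exact Submodule.subset_span ⟨i, I, 𝟙 _, 1, x, List.Sublist.refl _, hsmall, hx,
          by rw [one_mul]; exact (W.map_id _ x).symm⟩
      · have h1 := hN i I (by omega) hx
        refine (Submodule.span_le (p := Submodule.span W.K _)).2 ?_ h1
        rintro _ ⟨j, J, π, y, q, hs, hlt, hq, rfl⟩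
        have h2 := ihn J.length (by omega) j J rfl hq
        rw [SetLike.mem_coe]
        clear hq
        induction h2 using Submodule.span_induction with
        | zero => rw [map_zero, mul_zero]; exact Submodule.zero_mem _
        | add a b _ _ ha hb => rw [map_add, mul_add]; exact Submodule.add_mem _ ha hb
        | smul c a _ ha => rw [map_smul, mul_smul_comm]; exact Submodule.smul_mem _ _ ha
        | mem z hz =>
          obtain ⟨j', J', π', y', q', hs', hJ', hq', rfl⟩ := hz
          rw [map_mul, ← mul_assoc, ← W.map_comp]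
          exact Submodule.subset_span ⟨j', J', π ≫ π', y * W.map π y', q', hs'.trans hs, hJ',
            hq', rfl⟩
  exact key I.length i I rfl

/-- **The ring of classes on all products is generated by the products with few factors.** -/
theorem main_ring (T : ClassFamily W) (X : Fin r → 𝒱.Obj) :
    ∃ N : ℕ, (∀ (i : Fin r) (I : List (Fin r)) (c : ℕ), 0 < c →
      ∀ x ∈ T.cls (prodL X i I) c, x ∈ Submodule.span W.K {v | ∃ (j : Fin r) (J : List (Fin r))
        (π : prodL X i I ⟶ prodL X j J) (y : W.H (prodL X i I)) (b : ℕ)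
        (q : W.H (prodL X j J)), List.Sublist (j :: J) (i :: I) ∧ J.length + 1 ≤ N ∧ 0 < b ∧
          q ∈ T.cls (prodL X j J) b ∧ v = y * W.map π q}) ∧
      ∀ (A : ClassFamily W) (i : Fin r) (I : List (Fin r)),
      (∀ (j : Fin r) (J : List (Fin r)), List.Sublist (j :: J) (i :: I) →
        T.Nondeg (prodL X j J)) →
      (∀ (j : Fin r) (J : List (Fin r)), List.Sublist (j :: J) (i :: I) → J.length + 1 ≤ N →
        ∀ c, T.cls (prodL X j J) c ≤ A.cls (prodL X j J) c) →
      ∀ c, T.cls (prodL X i I) c ≤ A.cls (prodL X i I) c := by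
  obtain ⟨N, hN⟩ := exists_bound (posCls T X)
  refine ⟨N, fun i I c hc x hx => ?_, fun A => ?_⟩
  · refine (Submodule.span_le (p := Submodule.span W.K _)).2 ?_
      (le_small hN i I (Submodule.subset_span ⟨c, hc, hx⟩))
    rintro _ ⟨j, J, π, y, q, hs, hJ, hq, rfl⟩
    rw [SetLike.mem_coe]
    induction hq using Submodule.span_induction with
    | zero => rw [map_zero, mul_zero]; exact Submodule.zero_mem _
    | add a b _ _ ha hb => rw [map_add, mul_add]; exact Submodule.add_mem _ ha hb
    | smul c a _ ha => rw [map_smul, mul_smul_comm]; exact Submodule.smul_mem _ _ ha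
    | mem q hq =>
      obtain ⟨b, hb, hq⟩ := hq
      exact Submodule.subset_span ⟨j, J, π, y, b, q, hs, hJ, hb, hq, rfl⟩
  have key : ∀ (n : ℕ) (i : Fin r) (I : List (Fin r)), I.length = n →
      (∀ (j : Fin r) (J : List (Fin r)), List.Sublist (j :: J) (i :: I) →
        T.Nondeg (prodL X j J)) →
      (∀ (j : Fin r) (J : List (Fin r)), List.Sublist (j :: J) (i :: I) → J.length + 1 ≤ N →
        ∀ c, T.cls (prodL X j J) c ≤ A.cls (prodL X j J) c) →
      ∀ c, T.cls (prodL X i I) c ≤ A.cls (prodL X i I) c := by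
    intro n
    induction n using Nat.strong_induction_on with
    | _ n ihn =>
      intro i I hI hT H c
      by_cases hsmall : I.length + 1 ≤ N
      · exact H i I (List.Sublist.refl _) hsmall c
      push Not at hsmall
      induction c using Nat.strong_induction_on with
      | _ c ihc =>
        intro t ht
        rcases Nat.eq_zero_or_pos c with rfl | hc
        · have h1 := T.le_gr _ 0 ht
          rw [mul_zero, W.gr_zero, Submodule.mem_span_singleton] at h1
          obtain ⟨a, rfl⟩ := h1
          exact Submodule.smul_mem _ _ (A.one_mem _)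
        · have h1 : t ∈ below (posCls T X) i I :=
            hN i I (by omega) (Submodule.subset_span ⟨c, hc, ht⟩)
          refine (Submodule.span_le (p := A.cls (prodL X i I) c)).2 ?_
            (mem_span_of_below (hT i I (List.Sublist.refl _)) ht h1)
          rintro _ ⟨a', c', j, J, π, a, q, rfl, hc', hs, hlt, ha, hq, rfl⟩
          refine A.mul_mem (ihc a' (by omega) ha) (A.map_mem π ?_)
          exact ihn J.length (by omega) j J rfl (fun j' J' hs' => hT j' J' (hs'.trans hs))
            (fun j' J' hs' => H j' J' (hs'.trans hs)) c' hq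
  exact fun i I => key I.length i I rfl

end Pool.Agent.V1141.NG
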