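import Pool.Agent.V1141.NG.ConivDefs
import Pool.Agent.V1141.NG.Ring
import Pool.Agent.H914R2.WeilBasic

/-!
# The coniveau filtration, and generation in fixed coniveau
-/

set_option autoImplicit false
set_option linter.unusedSectionVars false

open CategoryTheory AlgebraicGeometry
open scoped TensorProduct

universe u v

namespace Pool.Agent.V1141.NG

open Pool.Agent.H914 Pool.Agent.H914.VarClass Pool.Agent.H914.VarClass.Obj
  Pool.Agent.H914.WeilCohomology

variable {k : Type u} [Field k] {𝒱 : VarClass k} {ops : CycleOps 𝒱}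
  {W : WeilCohomology.{u, v} ops} {r : ℕ} {X : Fin r → 𝒱.Obj}

/-- the pull-back of the image of a correspondence -/
lemma map_corr {Y Z Z' : 𝒱.Obj} (f : Z' ⟶ Z) (c : W.H (Y.prod Z)) (a : W.H Y) :
    W.map f (W.corr c a) =
      W.corr (W.map (Obj.lift (fst Y Z') (snd Y Z' ≫ f)) c) a := by
  refine W.kunneth_induction (p := fun c => W.map f (W.corr c a) =
    W.corr (W.map (Obj.lift (fst Y Z') (snd Y Z' ≫ f)) c) a) ?_ ?_ c
  · intro x y hx hy
    rw [W.corr_add, LinearMap.add_apply, map_add, hx, hy, map_add, W.corr_add,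
      LinearMap.add_apply]
  · intro i j y _ b hb
    -- reduce to homogeneous `a`
    refine gr_induction (W.isInternal Y) (p := fun a => W.map f (W.corr
      (W.map (fst Y Z) y * W.map (snd Y Z) b) a) = W.corr (W.map (Obj.lift (fst Y Z')
        (snd Y Z' ≫ f)) (W.map (fst Y Z) y * W.map (snd Y Z) b)) a) ?_ ?_ a
    · intro l a ha
      rw [map_mul, ← W.map_comp, ← W.map_comp, Obj.lift_fst, Obj.lift_snd, W.map_comp,
        W.corr_apply, W.corr_apply, mul_assoc, mul_assoc,
        W.comm (W.map_mem (snd Y Z) hb) (W.map_mem (fst Y Z) ha),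
        W.comm (W.map_mem (snd Y Z') (W.map_mem f hb)) (W.map_mem (fst Y Z') ha),
        mul_smul_comm, mul_smul_comm, map_smul, map_smul, map_smul, ← mul_assoc, ← mul_assoc,
        ← map_mul, ← map_mul, W.push_snd, W.push_snd, map_smul]
    · intro x x' hx hx'
      rw [map_add, map_add, hx, hx', map_add]

lemma map_coniveau {Z Z' : 𝒱.Obj} (f : Z' ⟶ Z) {c : ℕ} {v : W.H Z} (hv : v ∈ coniveau W Z c) :
    W.map f v ∈ coniveau W Z' c := by
  induction hv using Submodule.span_induction with
  | zero => rw [map_zero]; exact Submodule.zero_mem _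
  | add x y _ _ hx hy => rw [map_add]; exact Submodule.add_mem _ hx hy
  | smul a x _ hx => rw [map_smul]; exact Submodule.smul_mem _ _ hx
  | mem x hx =>
    obtain ⟨Y, z, y, hz, rfl⟩ := hx
    refine Submodule.subset_span ⟨Y, ops.pull (Obj.lift (fst Y Z') (snd Y Z' ≫ f)) z, y,
      ops.pull_mem _ hz, ?_⟩
    rw [map_corr, W.cl_pull]

/-- the product with the image of a correspondence -/
lemma corr_mul {Y Z : 𝒱.Obj} (c : W.H (Y.prod Z)) (a : W.H Y) (w : W.H Z) :
    W.corr c a * w = W.corr (W.push (Obj.lift (𝟙 (Y.prod Z)) (snd Y Z)) c)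
      (W.map (fst Y Z) a * W.map (snd Y Z) w) := by
  rw [W.corr_apply, W.corr_apply, ← W.push_mul, ← W.push_mul, ← W.push_comp, ← W.map_comp,
    Obj.lift_snd, Obj.lift_fst, W.map_id, mul_assoc]

lemma mul_coniveau {Z : 𝒱.Obj} (w : W.H Z) {c : ℕ} {v : W.H Z} (hv : v ∈ coniveau W Z c) :
    w * v ∈ coniveau W Z c := by
  induction hv using Submodule.span_induction with
  | zero => rw [mul_zero]; exact Submodule.zero_mem _
  | add x y _ _ hx hy => rw [mul_add]; exact Submodule.add_mem _ hx hy
  | smul a x _ hx => rw [mul_smul_comm]; exact Submodule.smul_mem _ _ hx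
  | mem x hx =>
    obtain ⟨Y, z, y, hz, rfl⟩ := hx
    have hR : ∀ (w : W.H Z) (y : W.H Y), W.corr (W.cl (Y.prod Z) z) y * w ∈ coniveau W Z c := by
      intro w y
      refine Submodule.subset_span ⟨Y.prod Z, ops.push (Obj.lift (𝟙 (Y.prod Z)) (snd Y Z)) z,
        W.map (fst Y Z) y * W.map (snd Y Z) w, ops.push_mem _ hz ?_, ?_⟩
      · simp only [Obj.dim_prod]
        omega
      · rw [corr_mul, W.cl_push]
    refine gr_induction (W.isInternal Z) (p := fun w => w * W.corr (W.cl (Y.prod Z) z) y ∈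
      coniveau W Z c) ?_ ?_ w
    · intro l w hw
      refine gr_induction (W.isInternal Y) (p := fun y => w * W.corr (W.cl (Y.prod Z) z) y ∈
        coniveau W Z c) ?_ ?_ y
      · intro d y hy
        obtain ⟨e, he⟩ : ∃ e, W.corr (W.cl (Y.prod Z) z) y ∈ W.gr Z e := by
          have h1 := W.push_mem (snd Y Z) (W.mul_mem (W.cl_mem hz) (W.map_mem (fst Y Z) hy))
          rw [← W.corr_apply] at h1
          rcases lt_or_ge ((2 * (Y.dim + c) + d : ℕ) + 2 * ((Z.dim : ℤ) - (Y.prod Z).dim)) 0
            with h | h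
          · rw [grZ_of_neg h, Submodule.mem_bot] at h1
            rw [h1]
            exact ⟨0, Submodule.zero_mem _⟩
          · obtain ⟨e, he⟩ := Int.eq_ofNat_of_zero_le h
            rw [he, grZ_natCast] at h1
            exact ⟨e, h1⟩
        rw [W.comm hw he]
        exact Submodule.smul_mem _ _ (hR w y)
      · intro x x' hx hx'
        rw [map_add, mul_add]
        exact Submodule.add_mem _ hx hx'
    · intro x x' hx hx'
      rw [add_mul]
      exact Submodule.add_mem _ hx hx'

/-- **Generation by few factors**, for arbitrary classes. -/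
theorem mem_idealOf (P : ∀ Z : 𝒱.Obj, W.H Z → Prop) (X : Fin r → 𝒱.Obj) :
    ∃ N : ℕ, ∀ (i : Fin r) (I : List (Fin r)), ∀ x, P (prodL X i I) x → x ∈ idealOf P X N i I := by
  obtain ⟨N, hN⟩ := exists_bound (X := X) (W := W) fun i I =>
    Submodule.span W.K {x | P (prodL X i I) x}
  refine ⟨N, fun i I x hx => ?_⟩
  refine (Submodule.span_le (p := idealOf P X N i I)).2 ?_
    (le_small hN i I (Submodule.subset_span hx))
  rintro _ ⟨j, J, π, y, q, hs, hJ, hq, rfl⟩
  rw [SetLike.mem_coe]
  induction hq using Submodule.span_induction with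
  | zero => rw [map_zero, mul_zero]; exact Submodule.zero_mem _
  | add a b _ _ ha hb => rw [map_add, mul_add]; exact Submodule.add_mem _ ha hb
  | smul c a _ ha => rw [map_smul, mul_smul_comm]; exact Submodule.smul_mem _ _ ha
  | mem q hq => exact Submodule.subset_span ⟨y, _, ⟨j, J, π, q, hs, hJ, hq, rfl⟩, rfl⟩

lemma idealOf_le_coniveau {P : ∀ Z : 𝒱.Obj, W.H Z → Prop} {X : Fin r → 𝒱.Obj} {N : ℕ}
    {i : Fin r} {I : List (Fin r)} {c : ℕ}
    (h : ∀ j J, IsSub j J i I → J.length + 1 ≤ N → ∀ x, P (prodL X j J) x →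
      x ∈ coniveau W (prodL X j J) c) :
    idealOf P X N i I ≤ coniveau W (prodL X i I) c := by
  refine Submodule.span_le.2 ?_
  rintro _ ⟨y, _, ⟨j, J, π, q, hs, hJ, hq, rfl⟩, rfl⟩
  exact mul_coniveau y (map_coniveau π (h j J hs hJ q hq))

end Pool.Agent.V1141.NG
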