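import Pool.Agent.V1141.NG.GenDefs
import Pool.Agent.H914R2.CorrDefs

/-!
# Coniveau: definitions
-/

set_option autoImplicit false

open CategoryTheory AlgebraicGeometry

universe u v

namespace Pool.Agent.V1141.NG

open Pool.Agent.H914 VarClass Obj WeilCohomology

variable {k : Type u} [Field k] {𝒱 : VarClass k} {ops : CycleOps 𝒱}

/-- The class `v` on `Z` is the image of a class on a variety `Y` under the map `H(Y) → H(Z)` (of
degree `2 c`) which is induced by an algebraic cycle of codimension `dim Y + c` on `Y × Z`. -/
def IsCorrImage (W : WeilCohomology.{u, v} ops) (Z : 𝒱.Obj) (c : ℕ) (v : W.H Z) : Prop :=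
  ∃ (Y : 𝒱.Obj) (z : (Y.prod Z).Cycles) (y : W.H Y), (Y.prod Z).IsCyc (Y.dim + c) z ∧
    v = W.corr (W.cl (Y.prod Z) z) y

/-- The part of geometric coniveau at least `c` of the cohomology of `Z`: the span of the images of
the maps `H(Y) → H(Z)` which are induced by the algebraic cycles of codimension `dim Y + c` on
`Y × Z`, for all varieties `Y`. -/
noncomputable def coniveau (W : WeilCohomology.{u, v} ops) (Z : 𝒱.Obj) (c : ℕ) :
    Submodule W.K (W.H Z) :=
  Submodule.span W.K {v | IsCorrImage W Z c v}

variable {W : WeilCohomology.{u, v} ops} {r : ℕ}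

/-- The pull-backs to the product over `i, I` of the classes with the property `P` on the
sub-products with at most `N` factors. -/
def pulledOf (P : ∀ Z : 𝒱.Obj, W.H Z → Prop) (X : Fin r → 𝒱.Obj) (N : ℕ) (i : Fin r)
    (I : List (Fin r)) : Set (W.H (prodL X i I)) :=
  {v | ∃ (j : Fin r) (J : List (Fin r)) (π : prodL X i I ⟶ prodL X j J)
    (q : W.H (prodL X j J)), IsSub j J i I ∧ J.length + 1 ≤ N ∧ P (prodL X j J) q ∧
      v = W.map π q}

/-- The left ideal of the cohomology ring of the product over `i, I` which is generated by the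
pull-backs of the classes with the property `P` on the sub-products with at most `N` factors. -/
noncomputable def idealOf (P : ∀ Z : 𝒱.Obj, W.H Z → Prop) (X : Fin r → 𝒱.Obj) (N : ℕ) (i : Fin r)
    (I : List (Fin r)) : Submodule W.K (W.H (prodL X i I)) :=
  Submodule.span W.K {v | ∃ y, ∃ q ∈ pulledOf P X N i I, v = y * q}

end Pool.Agent.V1141.NG
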