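import Pool.Agent.TH121.KT.WordDefs

/-!
# Products of the members of a family of varieties
-/

set_option autoImplicit false

open CategoryTheory AlgebraicGeometry

universe u v

namespace Pool.Agent.V1141.NG

open Pool.Agent.H914 VarClass Obj WeilCohomology

/-- The product `X i × (X j × (X k × …))`, for the index `i` and the list `[j, k, …]`. -/
@[reducible] noncomputable def prodL {k : Type u} [Field k] {𝒱 : VarClass k} {r : ℕ}
    (X : Fin r → 𝒱.Obj) : Fin r → List (Fin r) → 𝒱.Obj
  | i, [] => X i
  | i, j :: L => (X i).prod (prodL X j L)

end Pool.Agent.V1141.NG
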