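import Pool.Agent.V1141.NG.Defs

/-!
# Classes generated by the sub-products with few factors: definitions
-/

set_option autoImplicit false

open CategoryTheory AlgebraicGeometry

universe u v

namespace Pool.Agent.V1141.NG

open Pool.Agent.H914 VarClass Obj WeilCohomology

variable {k : Type u} [Field k] {𝒱 : VarClass k} {ops : CycleOps 𝒱}
  {W : WeilCohomology.{u, v} ops} {r : ℕ}

/-- The nonempty sequence of indices `j, J` is a subsequence of `i, I`, so that the product over
`j, J` is a sub-product of the product over `i, I`. -/
def IsSub (j : Fin r) (J : List (Fin r)) (i : Fin r) (I : List (Fin r)) : Prop :=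
  List.Sublist (j :: J) (i :: I)

/-- The pull-backs to the product over `i, I` of the classes `q` of codimension `b`, where `B b`
holds, with the property `P` on the sub-products with at most `N` factors. -/
def pulled (P : ∀ Z : 𝒱.Obj, ℕ → W.H Z → Prop) (X : Fin r → 𝒱.Obj) (B : ℕ → Prop) (N : ℕ)
    (i : Fin r) (I : List (Fin r)) : Set (W.H (prodL X i I)) :=
  {v | ∃ (j : Fin r) (J : List (Fin r)) (π : prodL X i I ⟶ prodL X j J) (b : ℕ)
    (q : W.H (prodL X j J)), IsSub j J i I ∧ J.length + 1 ≤ N ∧ B b ∧ P (prodL X j J) b q ∧
      v = W.map π q}

/-- The left ideal of the cohomology ring of the product over `i, I` which is generated by the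
pull-backs of the classes of positive codimension with the property `P` on the sub-products with at
most `N` factors. -/
noncomputable def idealFrom (P : ∀ Z : 𝒱.Obj, ℕ → W.H Z → Prop) (X : Fin r → 𝒱.Obj) (N : ℕ) (i : Fin r)
    (I : List (Fin r)) : Submodule W.K (W.H (prodL X i I)) :=
  Submodule.span W.K {v | ∃ y, ∃ q ∈ pulled P X (0 < ·) N i I, v = y * q}

/-- The subring of the cohomology ring of the product over `i, I` which is generated by the
pull-backs of the classes with the property `P` on the sub-products with at most `N` factors. -/
noncomputable def ringFrom (P : ∀ Z : 𝒱.Obj, ℕ → W.H Z → Prop) (X : Fin r → 𝒱.Obj) (N : ℕ) (i : Fin r)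
    (I : List (Fin r)) : Subalgebra W.K (W.H (prodL X i I)) :=
  Algebra.adjoin W.K (pulled P X (fun _ => True) N i I)

end Pool.Agent.V1141.NG
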