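import Pool.Agent.V1141.NG.ConivDefs

/-!
# Effective Galois representations and the generalized Tate conjecture: definitions
-/

set_option autoImplicit false

open CategoryTheory AlgebraicGeometry

universe u v w

namespace Pool.Agent.V1141.NG

open Pool.Agent.H914 VarClass Obj WeilCohomology

section Alg

variable {K V : Type*} [Field K] [AddCommGroup V] [Module K V]

/-- The element `a` of the algebraic closure of `K` is an eigenvalue of the restriction of the
operator `F` to the stable subspace `U`. -/
def IsEigenvalueOn (F : Module.End K V) (U : Submodule K V) (hU : ∀ x ∈ U, F x ∈ U)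
    (a : AlgebraicClosure K) : Prop :=
  Polynomial.aeval a (minpoly K (F.restrict hU)) = 0

/-- The number `a` is an eigenvalue of Frobenius, over the field with `q` elements, of an effective
representation of weight `n - 2 c`, twisted by `- c`: all its absolute values are `q ^ (n / 2)`, and
`a / q ^ c` and `q ^ (n - c) / a` are algebraic integers. -/
def IsEffectiveNumber {L : Type*} [Field L] (q n c : ℕ) (a : L) : Prop :=
  (∀ φ : L →+* ℂ, ‖φ a‖ ^ 2 = (q : ℝ) ^ n) ∧ IsIntegral ℤ (a / (q : L) ^ c) ∧
    IsIntegral ℤ ((q : L) ^ ((n : ℤ) - c) / a)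

/-- The Galois group `Γ` of a number field or a finite field: for every prime `v` an inertia
group, a geometric Frobenius element and the number of elements of the residue field. (For a finite
field there is one `v`, with trivial inertia group.) -/
structure Primes (Γ : Type*) [Group Γ] where
  /-- the set of the primes -/
  P : Type
  /-- the inertia group -/
  inertia : P → Subgroup Γ
  /-- the Frobenius element -/
  frob : P → Γ
  /-- the number of elements of the residue field -/
  q : P → ℕ

variable {A B : Type*} [Ring A] [Algebra K A] [Ring B] [Algebra K B] {Γ : Type*} [Group Γ]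

/-- The map `ρ` is an action of `Γ` on `A` by algebra automorphisms which respect the degree. -/
structure IsGradedAction (gr : ℕ → Submodule K A) (ρ : Γ → (A →ₐ[K] A)) : Prop where
  one : ρ 1 = AlgHom.id K A
  mul : ∀ g h, ρ (g * h) = (ρ g).comp (ρ h)
  gr_mem : ∀ g n, ∀ x ∈ gr n, ρ g x ∈ gr n

/-- The homomorphism `f` is equivariant. -/
def IsEquivariant (f : A →ₐ[K] B) (ρ : Γ → (A →ₐ[K] A)) (σ : Γ → (B →ₐ[K] B)) : Prop :=
  ∀ g x, σ g (f x) = f (ρ g x)

/-- The subspace `V` is stable under the action, and at all primes `v` at which the representation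
`V` is unramified the eigenvalues of Frobenius are those of an effective representation of weight
`n - 2 c`, twisted by `- c`: the twist `V(c)` is effective of weight `n - 2 c`. -/
def IsEffectiveTwist (S : Primes Γ) (ρ : Γ → (A →ₐ[K] A)) (n c : ℕ) (V : Submodule K A) : Prop :=
  ∃ h : ∀ g, ∀ x ∈ V, ρ g x ∈ V, ∀ v : S.P, (∀ g ∈ S.inertia v, ∀ x ∈ V, ρ g x = x) →
    ∀ a, IsEigenvalueOn (ρ (S.frob v)).toLinearMap V (h _) a → IsEffectiveNumber (S.q v) n c a

end Alg

variable {k : Type u} [Field k] {𝒱 : VarClass k} {ops : CycleOps 𝒱}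

/-- The group `Γ` acts on the cohomology of all varieties by algebra automorphisms which respect
the degree, and pull-backs are equivariant. (In the intended use `k` is a number field or a finite
field, `Γ` its Galois group and `W` the `ℓ`-adic cohomology of the varieties over the algebraic
closure.) -/
structure GaloisAction (W : WeilCohomology.{u, v} ops) (Γ : Type w) [Group Γ] where
  /-- the action -/
  act : ∀ Z : 𝒱.Obj, Γ → (W.H Z →ₐ[W.K] W.H Z)
  isAction : ∀ Z, IsGradedAction (W.gr Z) (act Z)
  map : ∀ {Y Z : 𝒱.Obj} (f : Y ⟶ Z), IsEquivariant (W.map f) (act Z) (act Y)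

variable {W : WeilCohomology.{u, v} ops} {Γ : Type w} [Group Γ]

/-- The twist `V(c)` of the Galois stable subspace `V` of `H^n(Z)` is effective of weight
`n - 2 c`. -/
def IsEffectiveSub (Φ : GaloisAction W Γ) (S : Primes Γ) (Z : 𝒱.Obj) (n c : ℕ)
    (V : Submodule W.K (W.H Z)) : Prop :=
  V ≤ W.gr Z n ∧ IsEffectiveTwist S (Φ.act Z) n c V

/-- The class `x` lies in a Galois stable subspace `V` of `H^n(Z)` such that `V(c)` is effective of
weight `n - 2 c`, for some `n`. -/
def HasGaloisConiveau (Φ : GaloisAction W Γ) (S : Primes Γ) (c : ℕ) (Z : 𝒱.Obj) (x : W.H Z) :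
    Prop :=
  ∃ n V, IsEffectiveSub Φ S Z n c V ∧ x ∈ V

/-- The generalized Tate conjecture for `Z` in coniveau `c`, in all degrees `n`. -/
def GTC (Φ : GaloisAction W Γ) (S : Primes Γ) (Z : 𝒱.Obj) (c : ℕ) : Prop :=
  ∀ n V, IsEffectiveSub Φ S Z n c V → V ≤ coniveau W Z c

end Pool.Agent.V1141.NG
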