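import Pool.Agent.V1141.NG.Coniv
import Pool.Agent.V1141.NG.GtcDefs

/-!
# Generation in fixed coniveau of the Galois representations of all products
-/

set_option autoImplicit false

open CategoryTheory AlgebraicGeometry

universe u v w

namespace Pool.Agent.V1141.NG

open Pool.Agent.H914 Pool.Agent.H914.VarClass Pool.Agent.H914.VarClass.Obj
  Pool.Agent.H914.WeilCohomology

variable {k : Type u} [Field k] {𝒱 : VarClass k} {ops : CycleOps 𝒱}
  {W : WeilCohomology.{u, v} ops} {r : ℕ} {X : Fin r → 𝒱.Obj}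

/-- **Generation in fixed coniveau, and reduction of the generalized Tate conjecture to few
factors.** -/
theorem gtc_main {Γ : Type w} [Group Γ] (Φ : GaloisAction W Γ) (S : Primes Γ)
    (X : Fin r → 𝒱.Obj) (c : ℕ) : ∃ N : ℕ, ∀ (i : Fin r) (I : List (Fin r)),
      (∀ n V, IsEffectiveSub Φ S (prodL X i I) n c V →
        V ≤ idealOf (HasGaloisConiveau Φ S c) X N i I) ∧
      ((∀ j J, IsSub j J i I → J.length + 1 ≤ N → GTC Φ S (prodL X j J) c) →
        GTC Φ S (prodL X i I) c) := by
  obtain ⟨N, hN⟩ := mem_idealOf (HasGaloisConiveau Φ S c) X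
  have h1 : ∀ (i : Fin r) (I : List (Fin r)) n V, IsEffectiveSub Φ S (prodL X i I) n c V →
      V ≤ idealOf (HasGaloisConiveau Φ S c) X N i I := fun i I n V hV x hx =>
    hN i I x ⟨n, V, hV, hx⟩
  refine ⟨N, fun i I => ⟨h1 i I, fun h n V hV => (h1 i I n V hV).trans
    (idealOf_le_coniveau fun j J hs hJ x hx => ?_)⟩⟩
  obtain ⟨n, V, hV, hx⟩ := hx
  exact h j J hs hJ n V hV hx

end Pool.Agent.V1141.NG
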