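import Pool.Agent.V1141.NG.Word

/-!
# Ideals in the cohomology of all products are generated by products with few factors
-/

set_option autoImplicit false
set_option linter.unusedSectionVars false

open CategoryTheory AlgebraicGeometry
open scoped TensorProduct

universe u v

namespace Pool.Agent.V1141.NG

open Pool.Agent.H914 Pool.Agent.H914.VarClass Pool.Agent.H914.VarClass.Obj
  Pool.Agent.H914.WeilCohomology

variable {k : Type u} [Field k] {𝒱 : VarClass k} {ops : CycleOps 𝒱}
  {W : WeilCohomology.{u, v} ops} {r : ℕ} {X : Fin r → 𝒱.Obj}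

/-- The left ideal generated by the pull-backs of the classes in `Q` from the proper
sub-products. -/
noncomputable def below (Q : ∀ (i : Fin r) (I : List (Fin r)), Submodule W.K (W.H (prodL X i I))) (i : Fin r)
    (I : List (Fin r)) : Submodule W.K (W.H (prodL X i I)) :=
  Submodule.span W.K {v | ∃ (j : Fin r) (J : List (Fin r)) (π : prodL X i I ⟶ prodL X j J)
    (y : W.H (prodL X i I)) (q : W.H (prodL X j J)), List.Sublist (j :: J) (i :: I) ∧
      J.length < I.length ∧ q ∈ Q j J ∧ v = y * W.map π q}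

variable {Q : ∀ (i : Fin r) (I : List (Fin r)), Submodule W.K (W.H (prodL X i I))}

lemma mem_below {i j : Fin r} {I J : List (Fin r)} (hs : List.Sublist (j :: J) (i :: I))
    (hlt : J.length < I.length) (π : prodL X i I ⟶ prodL X j J) (y : W.H (prodL X i I))
    {f : W.H (prodL X j J)} (hf : f ∈ Q j J ⊔ below Q j J) : y * W.map π f ∈ below Q i I := by
  obtain ⟨a, ha, b, hb, rfl⟩ := Submodule.mem_sup.1 hf
  rw [map_add, mul_add]
  refine Submodule.add_mem _ (Submodule.subset_span ⟨j, J, π, y, a, hs, hlt, ha, rfl⟩) ?_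
  clear hf
  induction hb using Submodule.span_induction with
  | zero => rw [map_zero, mul_zero]; exact Submodule.zero_mem _
  | add x z _ _ hx hz => rw [map_add, mul_add]; exact Submodule.add_mem _ hx hz
  | smul c x _ hx => rw [map_smul, mul_smul_comm]; exact Submodule.smul_mem _ _ hx
  | mem x hx =>
    obtain ⟨j', J', π', y', q, hs', hlt', hq, rfl⟩ := hx
    rw [map_mul, ← mul_assoc, ← W.map_comp]
    exact Submodule.subset_span ⟨j', J', π ≫ π', y * W.map π y', q, hs'.trans hs,
      hlt'.trans hlt, hq, rfl⟩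

variable {κ : Type} [LinearOrder κ] {e : ∀ i, κ → W.H (X i)}

/-- `L` bounds the words in a new element. -/
def Lead (Q : ∀ (i : Fin r) (I : List (Fin r)), Submodule W.K (W.H (prodL X i I)))
    (e : ∀ i, κ → W.H (X i)) (i : Fin r) (I : List (Fin r)) (L : List κ) : Prop :=
  L.length = I.length + 1 ∧ ∃ f ∈ Q i I ⊔ below Q i I, f ∉ below Q i I ∧
    f ∈ Submodule.span W.K {v | ∃ L' : List κ, L'.length = I.length + 1 ∧ L' ≤ L ∧
      v = val e i I L'}

lemma lead_of_span [Finite κ] {i : Fin r} {I : List (Fin r)} {S : Set (List κ)}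
    (hS : ∀ L ∈ S, L.length = I.length + 1) {f : W.H (prodL X i I)}
    (hf : f ∈ Q i I ⊔ below Q i I) (hf' : f ∉ below Q i I)
    (hspan : f ∈ Submodule.span W.K {v | ∃ L ∈ S, v = val e i I L}) : ∃ L ∈ S, Lead Q e i I L := by
  have hfin : S.Finite := (List.finite_length_eq κ (I.length + 1)).subset hS
  rcases S.eq_empty_or_nonempty with rfl | hne
  · exfalso
    apply hf'
    have h1 : f = 0 := by
      have h2 : {v : W.H (prodL X i I) | ∃ L ∈ (∅ : Set (List κ)), v = val e i I L} = ∅ := by
        ext v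
        simp
      rw [h2, Submodule.span_empty] at hspan
      exact (Submodule.mem_bot _).1 hspan
    rw [h1]
    exact Submodule.zero_mem _
  · obtain ⟨L, hL, hmax⟩ := Set.exists_max_image S id hfin hne
    refine ⟨L, hL, hS L hL, f, hf, hf', Submodule.span_mono ?_ hspan⟩
    rintro _ ⟨L', hL', rfl⟩
    exact ⟨L', hS L' hL', hmax L' hL', rfl⟩

lemma exists_min_lead [Finite κ] {i : Fin r} {I : List (Fin r)} (h : ∃ L, Lead Q e i I L) :
    ∃ L, Lead Q e i I L ∧ ∀ L' < L, ¬ Lead Q e i I L' := by
  have hfin : {L | Lead Q e i I L}.Finite :=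
    (List.finite_length_eq κ (I.length + 1)).subset fun L hL => hL.1
  obtain ⟨L, hL, hmin⟩ := Set.exists_min_image {L | Lead Q e i I L} id hfin h
  exact ⟨L, hL, fun L' hlt hL' => absurd (hmin L' hL') (not_le.2 hlt)⟩

/-- the words before `L` -/
noncomputable def before (e : ∀ i, κ → W.H (X i)) (i : Fin r) (I : List (Fin r)) (L : List κ) :
    Submodule W.K (W.H (prodL X i I)) :=
  Submodule.span W.K {v | ∃ L' ∈ {L' : List κ | L'.length = I.length + 1 ∧ L' < L},
    v = val e i I L'}

lemma not_mem_before [Finite κ] {i : Fin r} {I : List (Fin r)} {L : List κ}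
    (hmin : ∀ L' < L, ¬ Lead Q e i I L') {f : W.H (prodL X i I)}
    (hf : f ∈ Q i I ⊔ below Q i I) (hf' : f ∉ below Q i I) : f ∉ before e i I L := by
  intro h
  obtain ⟨L', hL', h1⟩ := lead_of_span (fun L' hL' => hL'.1) hf hf' h
  exact hmin L' hL'.2 h1

lemma exists_coeff {i : Fin r} {I : List (Fin r)} {L : List κ} {f : W.H (prodL X i I)}
    (h : f ∈ Submodule.span W.K {v | ∃ L' : List κ, L'.length = I.length + 1 ∧ L' ≤ L ∧
      v = val e i I L'}) : ∃ c : W.K, f - c • val e i I L ∈ before e i I L := by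
  induction h using Submodule.span_induction with
  | zero => exact ⟨0, by rw [zero_smul, sub_zero]; exact Submodule.zero_mem _⟩
  | add x y _ _ hx hy =>
    obtain ⟨c, hc⟩ := hx
    obtain ⟨c', hc'⟩ := hy
    refine ⟨c + c', ?_⟩
    have h1 : x + y - (c + c') • val e i I L = (x - c • val e i I L) +
        (y - c' • val e i I L) := by
      rw [add_smul]
      abel
    rw [h1]
    exact Submodule.add_mem _ hc hc'
  | smul a x _ hx =>
    obtain ⟨c, hc⟩ := hx
    refine ⟨a * c, ?_⟩
    rw [mul_smul, ← smul_sub]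
    exact Submodule.smul_mem _ _ hc
  | mem x hx =>
    obtain ⟨L', hL', hle, rfl⟩ := hx
    rcases eq_or_lt_of_le hle with rfl | hlt
    · exact ⟨1, by rw [one_smul, sub_self]; exact Submodule.zero_mem _⟩
    · refine ⟨0, ?_⟩
      rw [zero_smul, sub_zero]
      exact Submodule.subset_span ⟨L', ⟨hL', hlt⟩, rfl⟩

/-- **The comparison of two bad products.** -/
lemma no_pair [Finite κ] (he : ∀ i c, ∃ d, e i c ∈ W.gr (X i) d) {a b : Fin r × κ}
    {A B : List (Fin r × κ)} (hs : List.Sublist (b :: B) (a :: A)) (hlt : B.length < A.length)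
    (hb : Lead Q e b.1 (B.map Prod.fst) ((b :: B).map Prod.snd))
    (hb' : ∀ L' < (b :: B).map Prod.snd, ¬ Lead Q e b.1 (B.map Prod.fst) L')
    (ha : Lead Q e a.1 (A.map Prod.fst) ((a :: A).map Prod.snd))
    (ha' : ∀ L' < (a :: A).map Prod.snd, ¬ Lead Q e a.1 (A.map Prod.fst) L') : False := by
  obtain ⟨π, y, g, -, hg, hval, hmono⟩ := exists_insert he A a B b hs
  obtain ⟨-, f, hf, hf', hfs⟩ := hb
  obtain ⟨-, f₁, hf₁, hf₁', hfs₁⟩ := ha
  obtain ⟨c, hc⟩ := exists_coeff hfs
  obtain ⟨c₁, hc₁⟩ := exists_coeff hfs₁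
  have hc0 : c ≠ 0 := by
    rintro rfl
    rw [zero_smul, sub_zero] at hc
    exact not_mem_before hb' hf hf' hc
  have hs' : List.Sublist (b.1 :: B.map Prod.fst) (a.1 :: A.map Prod.fst) := hs.map Prod.fst
  have hlt' : (B.map Prod.fst).length < (A.map Prod.fst).length := by
    rw [List.length_map, List.length_map]
    exact hlt
  obtain ⟨h1, ε, hε, h2⟩ := hval ((b :: B).map Prod.snd) (by simp)
  rw [hg] at h2
  have hbelow : y * W.map π f ∈ below Q a.1 (A.map Prod.fst) := mem_below hs' hlt' π y hf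
  have hbefore : ∀ z ∈ before e b.1 (B.map Prod.fst) ((b :: B).map Prod.snd),
      y * W.map π z ∈ before e a.1 (A.map Prod.fst) ((a :: A).map Prod.snd) := by
    intro z hz
    induction hz using Submodule.span_induction with
    | zero => rw [map_zero, mul_zero]; exact Submodule.zero_mem _
    | add x z _ _ hx hz => rw [map_add, mul_add]; exact Submodule.add_mem _ hx hz
    | smul c x _ hx => rw [map_smul, mul_smul_comm]; exact Submodule.smul_mem _ _ hx
    | mem x hx =>
      obtain ⟨L', ⟨hL', hlt'⟩, rfl⟩ := hx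
      rw [List.length_map] at hL'
      obtain ⟨h3, ε', -, h4⟩ := hval L' hL'
      rw [h4]
      refine Submodule.smul_mem _ _ (Submodule.subset_span ⟨g L', ⟨?_, ?_⟩, rfl⟩)
      · rw [h3, List.length_map]
      · rw [← hg]
        exact hmono L' _ hL' (by simp) hlt'
  have hcε : c * ε ≠ 0 := mul_ne_zero hc0 hε.ne_zero
  refine not_mem_before ha' (f := f₁ - (c₁ / (c * ε)) • (y * W.map π f))
    (Submodule.sub_mem _ hf₁ (Submodule.smul_mem _ _
      ((le_sup_right : below Q a.1 (A.map Prod.fst) ≤ _) hbelow))) ?_ ?_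
  · intro h
    apply hf₁'
    have h3 := Submodule.add_mem _ h (Submodule.smul_mem _ (c₁ / (c * ε)) hbelow)
    rwa [sub_add_cancel] at h3
  · have h3 := hbefore _ hc
    rw [map_sub, mul_sub, map_smul, mul_smul_comm, h2, smul_smul] at h3
    have h4 := Submodule.sub_mem _ hc₁ (Submodule.smul_mem _ (c₁ / (c * ε)) h3)
    rw [smul_sub, smul_smul, div_mul_cancel₀ _ hcε] at h4
    have h5 : f₁ - c₁ • val e a.1 (A.map Prod.fst) ((a :: A).map Prod.snd) -
        ((c₁ / (c * ε)) • (y * W.map π f) - c₁ • val e a.1 (A.map Prod.fst)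
          ((a :: A).map Prod.snd)) = f₁ - (c₁ / (c * ε)) • (y * W.map π f) := by
      abel
    rwa [h5] at h4

/-- **Ideals are generated by the products with few factors.** -/
theorem exists_bound_of_letters [Finite κ] (he : ∀ i c, ∃ d, e i c ∈ W.gr (X i) d)
    (he' : ∀ i, Submodule.span W.K (Set.range (e i)) = ⊤)
    (Q : ∀ (i : Fin r) (I : List (Fin r)), Submodule W.K (W.H (prodL X i I))) :
    ∃ N : ℕ, ∀ (i : Fin r) (I : List (Fin r)), N ≤ I.length → Q i I ≤ below Q i I := by
  classical
  by_contra hcon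
  push Not at hcon
  choose i I hN hbad using hcon
  have h1 : ∀ n, ∃ w : (Fin r × κ) × List (Fin r × κ), n ≤ w.2.length ∧
      Lead Q e w.1.1 (w.2.map Prod.fst) ((w.1 :: w.2).map Prod.snd) ∧
      ∀ L' < (w.1 :: w.2).map Prod.snd, ¬ Lead Q e w.1.1 (w.2.map Prod.fst) L' := by
    intro n
    obtain ⟨f, hf, hf'⟩ := SetLike.not_le_iff_exists.1 (hbad n)
    obtain ⟨L₀, -, hL₀⟩ := lead_of_span (Q := Q) (e := e)
      (S := {L : List κ | L.length = (I n).length + 1}) (fun L hL => hL)
      ((le_sup_left : Q (i n) (I n) ≤ _) hf) hf' (span_val he' (I n) (i n) f)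
    obtain ⟨L, hL, hmin⟩ := exists_min_lead ⟨L₀, hL₀⟩
    match L, hL, hmin with
    | [], hL, _ => exact absurd hL.1 (by simp)
    | c :: L, hL, hmin =>
      have hlen : L.length = (I n).length := by
        have := hL.1
        rw [List.length_cons] at this
        omega
      have e1 : ((I n).zip L).map Prod.fst = I n := List.map_fst_zip (by omega)
      have e2 : ((I n).zip L).map Prod.snd = L := List.map_snd_zip (by omega)
      refine ⟨((i n, c), (I n).zip L), ?_, ?_, ?_⟩
      · change n ≤ ((I n).zip L).length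
        rw [List.length_zip, hlen, min_self]
        exact hN n
      · change Lead Q e (i n) (((I n).zip L).map Prod.fst) (c :: ((I n).zip L).map Prod.snd)
        rw [e1, e2]
        exact hL
      · change ∀ L' < c :: ((I n).zip L).map Prod.snd,
          ¬ Lead Q e (i n) (((I n).zip L).map Prod.fst) L'
        rw [e1, e2]
        exact hmin
  choose w hw hlead hmin using h1
  obtain ⟨φ, hφ, hφ'⟩ := Filter.strictMono_subseq_of_id_le hw
  have hH := Set.PartiallyWellOrderedOn.partiallyWellOrderedOn_sublistForall₂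
    (α := Fin r × κ) (· = ·) (s := Set.univ) (Set.finite_univ.partiallyWellOrderedOn)
  obtain ⟨m, n, hmn, hs⟩ := hH.exists_lt (f := fun n => (w (φ n)).1 :: (w (φ n)).2)
    (fun _ _ _ => Set.mem_univ _)
  have hs' : List.Sublist ((w (φ m)).1 :: (w (φ m)).2) ((w (φ n)).1 :: (w (φ n)).2) := by
    obtain ⟨l, h2, h3⟩ := List.sublistForall₂_iff.1 hs
    rw [List.forall₂_eq_eq_eq] at h2
    rw [h2]
    exact h3
  exact no_pair he hs' (hφ' hmn) (hlead _) (hmin _) (hlead _) (hmin _)

end Pool.Agent.V1141.NG
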