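import Pool.Agent.V1141.NG.Defs

/-!
# Words in the cohomology of products
-/

set_option autoImplicit false
set_option linter.unusedSectionVars false

open CategoryTheory AlgebraicGeometry
open scoped TensorProduct

universe u v

namespace Pool.Agent.V1141.NG

open Pool.Agent.H914 Pool.Agent.H914.VarClass Pool.Agent.H914.VarClass.Obj
  Pool.Agent.H914.WeilCohomology



variable {k : Type u} [Field k] {𝒱 : VarClass k} {ops : CycleOps 𝒱}
  {W : WeilCohomology.{u, v} ops} {r : ℕ} {X : Fin r → 𝒱.Obj} {κ : Type}

/-- The word with the letters `L` in the cohomology of a product. -/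
noncomputable def val (e : ∀ i, κ → W.H (X i)) : ∀ (i : Fin r) (I : List (Fin r)),
    List κ → W.H (prodL X i I)
  | i, [], L => match L with
    | [c] => e i c
    | _ => (0 : W.H (X i))
  | i, j :: I, L => match L with
    | c :: L => W.map (fst (X i) (prodL X j I)) (e i c) *
        W.map (snd (X i) (prodL X j I)) (val e j I L)
    | [] => (0 : W.H ((X i).prod (prodL X j I)))

variable {e : ∀ i, κ → W.H (X i)}

lemma val_one (i : Fin r) (c : κ) : val e i [] [c] = e i c := rfl

lemma val_cons (i j : Fin r) (I : List (Fin r)) (c : κ) (L : List κ) :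
    val e i (j :: I) (c :: L) = W.map (fst (X i) (prodL X j I)) (e i c) *
      W.map (snd (X i) (prodL X j I)) (val e j I L) := rfl

/-- The products are spanned by words. -/
lemma span_val (he : ∀ i, Submodule.span W.K (Set.range (e i)) = ⊤) :
    ∀ (I : List (Fin r)) (i : Fin r) (z : W.H (prodL X i I)),
      z ∈ Submodule.span W.K {v | ∃ L : List κ, L.length = I.length + 1 ∧ v = val e i I L}
  | [], i, z => by
    have h1 : z ∈ Submodule.span W.K (Set.range (e i)) := by
      rw [he i]
      exact Submodule.mem_top
    refine Submodule.span_mono ?_ h1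
    rintro _ ⟨c, rfl⟩
    exact ⟨[c], rfl, rfl⟩
  | j :: I, i, z => by
    obtain ⟨t, rfl⟩ := (W.kunneth (X i) (prodL X j I)).2 z
    induction t using TensorProduct.induction_on with
    | zero => rw [map_zero]; exact Submodule.zero_mem _
    | add x y hx hy => rw [map_add]; exact Submodule.add_mem _ hx hy
    | tmul x y =>
      have hx : x ∈ Submodule.span W.K (Set.range (e i)) := by
        rw [he i]
        exact Submodule.mem_top
      have hy := span_val he I j y
      change W.map (fst (X i) (prodL X j I)) x * W.map (snd (X i) (prodL X j I)) y ∈ _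
      induction hx using Submodule.span_induction with
      | zero => rw [map_zero, zero_mul]; exact Submodule.zero_mem _
      | add x y _ _ hx hy => rw [map_add, add_mul]; exact Submodule.add_mem _ hx hy
      | smul c x _ hx => rw [map_smul, smul_mul_assoc]; exact Submodule.smul_mem _ _ hx
      | mem x hx =>
        obtain ⟨c, rfl⟩ := hx
        induction hy using Submodule.span_induction with
        | zero => rw [map_zero, mul_zero]; exact Submodule.zero_mem _
        | add x y _ _ hx hy => rw [map_add, mul_add]; exact Submodule.add_mem _ hx hy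
        | smul c x _ hx => rw [map_smul, mul_smul_comm]; exact Submodule.smul_mem _ _ hx
        | mem y hy =>
          obtain ⟨L, hL, rfl⟩ := hy
          exact Submodule.subset_span ⟨c :: L, by rw [List.length_cons, List.length_cons, hL], rfl⟩

/-- The words are homogeneous. -/
lemma val_hom (he : ∀ i c, ∃ d, e i c ∈ W.gr (X i) d) :
    ∀ (I : List (Fin r)) (i : Fin r) (L : List κ), ∃ d, val e i I L ∈ W.gr (prodL X i I) d
  | [], i, L => by
    match L with
    | [] => exact ⟨0, Submodule.zero_mem _⟩
    | [c] => exact he i c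
    | _ :: _ :: _ => exact ⟨0, Submodule.zero_mem _⟩
  | j :: I, i, L => by
    match L with
    | [] => exact ⟨0, Submodule.zero_mem _⟩
    | c :: L =>
      obtain ⟨d, hd⟩ := he i c
      obtain ⟨d', hd'⟩ := val_hom he I j L
      exact ⟨d + d', W.mul_mem (W.map_mem _ hd) (W.map_mem _ hd')⟩

/-- signs -/
def IsSign (ε : W.K) : Prop := ε = 1 ∨ ε = -1

lemma IsSign.mul {ε ε' : W.K} (h : IsSign (W := W) ε) (h' : IsSign (W := W) ε') :
    IsSign (W := W) (ε * ε') := by
  rcases h with rfl | rfl <;> rcases h' with rfl | rfl
  · exact Or.inl (one_mul 1)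
  · exact Or.inr (one_mul _)
  · exact Or.inr (mul_one _)
  · exact Or.inl (by rw [neg_mul_neg, one_mul])

lemma IsSign.ne_zero {ε : W.K} (h : IsSign (W := W) ε) : ε ≠ 0 := by
  rcases h with rfl | rfl
  · exact one_ne_zero
  · exact neg_ne_zero.2 one_ne_zero

lemma comm_sign {Z : 𝒱.Obj} {a b : W.H Z} {m n : ℕ} (ha : a ∈ W.gr Z m) (hb : b ∈ W.gr Z n) :
    ∃ ε : W.K, IsSign (W := W) ε ∧ a * b = ε • (b * a) := by
  refine ⟨_, ?_, W.comm ha hb⟩
  rcases Nat.even_or_odd (m * n) with h | h
  · exact Or.inl h.neg_one_pow
  · exact Or.inr h.neg_one_pow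

variable [LinearOrder κ]

/-- **Insertion of letters.** -/
lemma exists_insert (he : ∀ i c, ∃ d, e i c ∈ W.gr (X i) d) :
    ∀ (A : List (Fin r × κ)) (a : Fin r × κ) (B : List (Fin r × κ)) (b : Fin r × κ),
      List.Sublist (b :: B) (a :: A) →
      ∃ (π : prodL X a.1 (A.map Prod.fst) ⟶ prodL X b.1 (B.map Prod.fst))
        (y : W.H (prodL X a.1 (A.map Prod.fst))) (g : List κ → List κ),
        (∃ d, y ∈ W.gr _ d) ∧ g ((b :: B).map Prod.snd) = (a :: A).map Prod.snd ∧
        (∀ L, L.length = B.length + 1 → (g L).length = A.length + 1 ∧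
          ∃ ε : W.K, IsSign (W := W) ε ∧ y * W.map π (val e b.1 (B.map Prod.fst) L) =
            ε • val e a.1 (A.map Prod.fst) (g L)) ∧
        (∀ L L', L.length = B.length + 1 → L'.length = B.length + 1 → L < L' → g L < g L')
  | [], a, B, b, h => by
    obtain ⟨rfl, rfl⟩ : b = a ∧ B = [] := by
      have h1 := h.length_le
      have h2 : B = [] := by
        rw [List.length_cons, List.length_singleton] at h1
        exact List.length_eq_zero_iff.1 (by omega)
      subst h2
      refine ⟨?_, rfl⟩
      have h3 := h.eq_of_length rfl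
      exact (List.cons.inj h3).1
    refine ⟨𝟙 _, 1, id, ⟨0, W.one_mem _⟩, rfl, fun L hL => ⟨hL, 1, Or.inl rfl, ?_⟩,
      fun L L' _ _ h => h⟩
    rw [one_mul, one_smul]
    exact W.map_id _ _
  | a' :: A, a, B, b, h => by
    rcases List.sublist_cons_iff.1 h with h1 | ⟨B', h1, h2⟩
    · -- the first letter is dropped
      obtain ⟨π, y, g, ⟨d, hd⟩, hg, hval, hlt⟩ := exists_insert he A a' B b h1
      obtain ⟨d', hd'⟩ := he a.1 a.2
      refine ⟨snd (X a.1) (prodL X a'.1 (A.map Prod.fst)) ≫ π,
        W.map (fst (X a.1) (prodL X a'.1 (A.map Prod.fst))) (e a.1 a.2) *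
          W.map (snd (X a.1) (prodL X a'.1 (A.map Prod.fst))) y, fun L => a.2 :: g L,
        ⟨d' + d, W.mul_mem (W.map_mem _ hd') (W.map_mem _ hd)⟩, ?_, fun L hL => ?_,
        fun L L' hL hL' hlt' => ?_⟩
      · change a.2 :: g ((b :: B).map Prod.snd) = _
        rw [hg]
        rfl
      · obtain ⟨h3, ε, hε, h4⟩ := hval L hL
        refine ⟨by rw [List.length_cons, h3, List.length_cons], ε, hε, ?_⟩
        change _ = ε • (W.map (fst (X a.1) (prodL X a'.1 (A.map Prod.fst))) (e a.1 a.2) *
          W.map (snd (X a.1) (prodL X a'.1 (A.map Prod.fst)))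
            (val e a'.1 (A.map Prod.fst) (g L)))
        rw [W.map_comp, mul_assoc, ← map_mul, h4, map_smul, mul_smul_comm]
      · exact List.cons_lt_cons_iff.2 (Or.inr ⟨rfl, hlt L L' hL hL' hlt'⟩)
    · obtain ⟨rfl, rfl⟩ := List.cons.inj h1
      match B, h2 with
      | [], h2 =>
        obtain ⟨D, hD⟩ := val_hom he (A.map Prod.fst) a'.1 ((a' :: A).map Prod.snd)
        refine ⟨fst (X b.1) (prodL X a'.1 (A.map Prod.fst)),
          W.map (snd (X b.1) (prodL X a'.1 (A.map Prod.fst)))
            (val e a'.1 (A.map Prod.fst) ((a' :: A).map Prod.snd)),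
          fun L => L ++ (a' :: A).map Prod.snd, ⟨D, W.map_mem _ hD⟩, rfl, fun L hL => ?_,
          fun L L' hL hL' hlt' => ?_⟩
        · match L, hL with
          | [c], _ =>
            obtain ⟨d, hd⟩ := he b.1 c
            obtain ⟨ε, hε, h4⟩ := comm_sign (W.map_mem (snd (X b.1)
              (prodL X a'.1 (A.map Prod.fst))) hD)
              (W.map_mem (fst (X b.1) (prodL X a'.1 (A.map Prod.fst))) hd)
            refine ⟨by simp, ε, hε, ?_⟩
            exact h4
        · match L, L', hL, hL' with
          | [c], [c'], _, _ =>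
            refine List.cons_lt_cons_iff.2 (Or.inl ?_)
            rcases List.cons_lt_cons_iff.1 hlt' with h3 | ⟨-, h3⟩
            · exact h3
            · exact absurd h3 (lt_irrefl _)
      | b' :: B, h2 =>
        obtain ⟨π, y, g, ⟨d, hd⟩, hg, hval, hlt⟩ := exists_insert he A a' B b' h2
        refine ⟨lift (fst (X b.1) (prodL X a'.1 (A.map Prod.fst)))
          (snd (X b.1) (prodL X a'.1 (A.map Prod.fst)) ≫ π),
          W.map (snd (X b.1) (prodL X a'.1 (A.map Prod.fst))) y,
          fun L => match L with
            | [] => []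
            | c :: L => c :: g L, ⟨d, W.map_mem _ hd⟩, ?_, fun L hL => ?_,
          fun L L' hL hL' hlt' => ?_⟩
        · change b.2 :: g ((b' :: B).map Prod.snd) = _
          rw [hg]
          rfl
        · match L, hL with
          | c :: L, hL =>
            have hL1 : L.length = B.length + 1 := by
              rw [List.length_cons, List.length_cons] at hL
              omega
            obtain ⟨h3, ε, hε, h4⟩ := hval L hL1
            obtain ⟨d', hd'⟩ := he b.1 c
            obtain ⟨ε', hε', h5⟩ := comm_sign (W.map_mem (snd (X b.1)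
              (prodL X a'.1 (A.map Prod.fst))) hd)
              (W.map_mem (fst (X b.1) (prodL X a'.1 (A.map Prod.fst))) hd')
            refine ⟨by rw [List.length_cons, h3, List.length_cons], ε' * ε, hε'.mul hε, ?_⟩
            change W.map (snd (X b.1) (prodL X a'.1 (A.map Prod.fst))) y *
              W.map (lift (fst (X b.1) (prodL X a'.1 (A.map Prod.fst)))
                (snd (X b.1) (prodL X a'.1 (A.map Prod.fst)) ≫ π))
                (W.map (fst (X b.1) (prodL X b'.1 (B.map Prod.fst))) (e b.1 c) *
                  W.map (snd (X b.1) (prodL X b'.1 (B.map Prod.fst)))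
                    (val e b'.1 (B.map Prod.fst) L)) =
              (ε' * ε) • (W.map (fst (X b.1) (prodL X a'.1 (A.map Prod.fst))) (e b.1 c) *
                W.map (snd (X b.1) (prodL X a'.1 (A.map Prod.fst)))
                  (val e a'.1 (A.map Prod.fst) (g L)))
            rw [map_mul, ← W.map_comp, ← W.map_comp, lift_fst, lift_snd, W.map_comp, ← mul_assoc,
              h5, smul_mul_assoc, mul_assoc, ← map_mul, h4, map_smul, mul_smul_comm, smul_smul]
        · match L, L', hL, hL' with
          | c :: L, c' :: L', hL, hL' =>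
            have hL1 : L.length = B.length + 1 := by
              rw [List.length_cons, List.length_cons] at hL
              omega
            have hL2 : L'.length = B.length + 1 := by
              rw [List.length_cons, List.length_cons] at hL'
              omega
            refine List.cons_lt_cons_iff.2 ?_
            rcases List.cons_lt_cons_iff.1 hlt' with h3 | ⟨h3, h4⟩
            · exact Or.inl h3
            · exact Or.inr ⟨h3, hlt L L' hL1 hL2 h4⟩

end Pool.Agent.V1141.NG
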